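import Pool.Agent.Helper69.RK.Defs

/-! Sticky Kakeya sets, Hausdorff form: passage from the discrete theorem to sets. Statements of the modules. -/

namespace Pool.Agent.Helper70.HS

open Finset
open Pool.Agent.Helper69.RK (CH cel Yt ht Sys mass)

noncomputable section

/-- the discrete theorem (Hausdorff form): heights only of almost full entropy given the line -/
def GapH (m : ℕ) : Prop :=
  ∀ ε : ℝ, 0 < ε → ∃ η : ℝ, 0 < η ∧ ∃ n0 : ℕ, ∀ n : ℕ, n0 ≤ n →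
    ∀ (Ω ζ : Type) [Fintype Ω] (μ : Ω → ℝ) (Z : Ω → ζ) (a x : Ω → Fin m → ℝ) (t : Ω → ℕ), Sys m n η μ Z a x →
      (∀ ω, t ω < 2 ^ n) →
      (1 - η) * n ≤ CH μ t (fun ω => (cel n (a ω), cel n (x ω), Z ω)) →
      CH μ (fun ω => cel n (x ω)) Z -
        CH μ (fun ω => cel n (Yt (ht n (t ω)) (a ω) (x ω))) (fun ω => (t ω, Z ω)) ≤ ε * n

/-! ### dyadic contents -/

/-- sum of `side ^ σ` over a family of dyadic cells `(level, cell)` -/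
def wQ {m : ℕ} (σ : ℝ) (Q : Set (ℕ × (Fin m → ℤ))) : ENNReal :=
  ∑' p : Q, ENNReal.ofReal ((2 : ℝ) ^ (-(σ * (p.1.1 : ℝ))))

/-- the family `Q` of dyadic cells covers `X` -/
def Cov {m : ℕ} (Q : Set (ℕ × (Fin m → ℤ))) (X : Set (Fin m → ℝ)) : Prop := ∀ x ∈ X, ∃ k, (k, cel k x) ∈ Q

/-- the dyadic content of dimension `σ` of `X` is at least `c` -/
def Cont {m : ℕ} (σ c : ℝ) (X : Set (Fin m → ℝ)) : Prop :=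
  ∀ Q : Set (ℕ × (Fin m → ℤ)), Cov Q X → ENNReal.ofReal c ≤ wQ σ Q

/-- the set of heights at which the line `(a, x)` meets `E`, in `[0,1)`, as a subset of `Fin 1 → ℝ` -/
def Hts {m : ℕ} (E : Set ((Fin m → ℝ) × ℝ)) (a x : Fin m → ℝ) : Set (Fin 1 → ℝ) :=
  {t | 0 ≤ t 0 ∧ t 0 < 1 ∧ (Yt (t 0) a x, t 0) ∈ E}

/-- (CONT) positive dyadic content below the Hausdorff dimension -/
def ST_CONT : Prop :=
  ∀ (m : ℕ) (σ : ℝ) (X : Set (Fin m → ℝ)), 0 ≤ σ → ENNReal.ofReal σ < dimH X → ∃ c : ℝ, 0 < c ∧ Cont σ c X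

/-- (COVER) efficient dyadic covers above the Hausdorff dimension -/
def ST_COVER : Prop :=
  ∀ (M : ℕ) (d : ℝ) (E : Set (Fin M → ℝ)), 0 < d → dimH E < ENNReal.ofReal d → ∀ n0 : ℕ,
    ∃ Q : Set (ℕ × (Fin M → ℤ)), Cov Q E ∧ (∀ p ∈ Q, n0 ≤ p.1) ∧ wQ d Q ≤ 1

/-- (LEV) number of cells of one level in an efficient cover -/
def ST_LEV : Prop :=
  ∀ (m : ℕ) (d : ℝ) (Q : Set (ℕ × (Fin m → ℤ))), wQ d Q ≤ 1 → ∀ n : ℕ,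
    ∃ F : Finset (Fin m → ℤ), (∀ q, q ∈ F ↔ (n, q) ∈ Q) ∧ (F.card : ℝ) ≤ (2 : ℝ) ^ (d * n)

/-- (PIG) pigeonhole for contents -/
def ST_PIG : Prop :=
  ∀ (m : ℕ) (σ c : ℝ) (X : Set (Fin m → ℝ)) (Y : ℕ → Set (Fin m → ℝ)) (b : ℕ → ℝ), Cont σ c X → X ⊆ ⋃ j, Y j →
    (∑' j, ENNReal.ofReal (b j)) < ENNReal.ofReal c → ∃ j, Cont σ (b j) (Y j)

/-- (NUM) number of cells of one level meeting a set of positive content -/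
def ST_NUM : Prop :=
  ∀ (m : ℕ) (σ c : ℝ) (X : Set (Fin m → ℝ)) (n : ℕ) (F : Finset (Fin m → ℤ)), Cont σ c X → (∀ x ∈ X, cel n x ∈ F) →
    c * (2 : ℝ) ^ (σ * n) ≤ F.card

/-- (FROST) discrete Frostman lemma -/
def ST_FROST : Prop :=
  ∀ (m : ℕ) (σ c : ℝ) (X : Set (Fin m → ℝ)) (n : ℕ), 0 ≤ σ → 0 < c → c ≤ 1 → Cont σ c X →
    (∀ x ∈ X, ∀ i, 0 ≤ x i ∧ x i < 1) →
    ∃ (S : Finset (Fin m → ℝ)) (w : (Fin m → ℝ) → ℝ), (∀ x ∈ S, x ∈ X) ∧ (∀ x, 0 ≤ w x) ∧ ∑ x ∈ S, w x = 1 ∧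
      ∀ k ≤ n, ∀ p : Fin m → ℤ, ∑ x ∈ S with cel k x = p, w x ≤ (2 : ℝ) ^ (-(σ * k)) / c

/-- number of cells of level `k` of the phase space met by `L` is at most `M 2 ^ (s k)` -/
def Box {m : ℕ} (s M : ℝ) (L : Set ((Fin m → ℝ) × (Fin m → ℝ))) : Prop :=
  ∀ k : ℕ, ∃ F : Finset ((Fin m → ℤ) × (Fin m → ℤ)), (∀ l ∈ L, (cel k l.1, cel k l.2) ∈ F) ∧
    (F.card : ℝ) ≤ M * (2 : ℝ) ^ (s * k)

/-- (ENT) the system of scale `n`: entropies of the line and of the height -/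
def ST_ENT : Prop :=
  ∀ (m n : ℕ) (s σ M c b : ℝ) (L : Set ((Fin m → ℝ) × (Fin m → ℝ))) (A : (Fin m → ℝ) × (Fin m → ℝ) → Finset ℕ),
    0 ≤ σ → 0 < c → c ≤ 1 → 1 ≤ M → 0 ≤ s → 0 < b →
    (∀ l ∈ L, ∀ i, (0 ≤ l.1 i ∧ l.1 i < 1) ∧ (0 ≤ l.2 i ∧ l.2 i < 1)) →
    Box s M L → Cont σ c (Prod.snd '' L) →
    (∀ l ∈ L, (∀ g ∈ A l, g < 2 ^ n) ∧ b ≤ (A l).card) →
    ∃ (Ω : Type) (_ : Fintype Ω) (μ : Ω → ℝ) (a x : Ω → Fin m → ℝ) (t : Ω → ℕ),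
      (∀ ω, 0 ≤ μ ω) ∧ mass μ = 1 ∧ (∀ ω, (a ω, x ω) ∈ L ∧ t ω ∈ A (a ω, x ω)) ∧
      (∀ k ≤ n, σ * k - Real.logb 2 (1 / c) ≤ CH μ (fun ω => cel k (x ω)) (fun _ => ())) ∧
      (∀ k ≤ n, CH μ (fun ω => cel k (a ω)) (fun ω => (cel k (x ω), ())) ≤
        (s - σ) * k + Real.logb 2 M + Real.logb 2 (1 / c)) ∧
      Real.logb 2 b ≤ CH μ t (fun ω => (cel n (a ω), cel n (x ω), ()))

/-- (SCALE) contradiction at one scale -/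
def ST_SCALE : Prop :=
  ∀ (m : ℕ) (s d : ℝ), GapH m → 0 < s → 0 < d → d < s + 1 → ∃ η : ℝ, 0 < η ∧ η < s ∧ η < 1 ∧
    ∀ M c : ℝ, 1 ≤ M → 0 < c → c ≤ 1 → ∃ n0 : ℕ, ∀ n : ℕ, n0 ≤ n →
      ∀ (L : Set ((Fin m → ℝ) × (Fin m → ℝ))) (A : (Fin m → ℝ) × (Fin m → ℝ) → Finset ℕ)
        (F : Finset ((Fin m → ℤ) × ℕ)),
        (∀ l ∈ L, ∀ i, (0 ≤ l.1 i ∧ l.1 i < 1) ∧ (0 ≤ l.2 i ∧ l.2 i < 1)) →
        Box (s + η) M L → Cont (s - η) (c / n ^ 2) (Prod.snd '' L) →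
        (∀ l ∈ L, (∀ g ∈ A l, g < 2 ^ n ∧ ∃ t : ℝ, (g : ℝ) ≤ 2 ^ n * t ∧ 2 ^ n * t < g + 1 ∧
          (cel n (Yt t l.1 l.2), g) ∈ F) ∧ c / n ^ 2 * (2 : ℝ) ^ ((1 - η) * n) ≤ (A l).card) →
        (2 : ℝ) ^ (d * n) < F.card

/-- (UNIT) the theorem for one bounded piece of the line set -/
def ST_UNIT : Prop :=
  ∀ (m : ℕ) (s d : ℝ), GapH m → 0 < s → 0 < d → d < s + 1 → ∃ η : ℝ, 0 < η ∧ η < s ∧ η < 1 ∧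
    ∀ (M c : ℝ) (L : Set ((Fin m → ℝ) × (Fin m → ℝ))) (E : Set ((Fin m → ℝ) × ℝ)), 1 ≤ M → 0 < c →
      (∀ l ∈ L, ∀ i, (0 ≤ l.1 i ∧ l.1 i < 1) ∧ (0 ≤ l.2 i ∧ l.2 i < 1)) →
      Box (s + η) M L → Cont (s - η) c (Prod.snd '' L) → (∀ l ∈ L, Cont (1 - η) c (Hts E l.1 l.2)) →
      ENNReal.ofReal d ≤ dimH E

/-- (COORD) the theorem in coordinates -/
def ST_COORD : Prop :=
  ∀ (m : ℕ) (s : ℝ), GapH m → 0 < s → ∀ (L : Set ((Fin m → ℝ) × (Fin m → ℝ))) (E : Set ((Fin m → ℝ) × ℝ)),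
    (∀ η : ℝ, 0 < η → ∃ P : ℕ → Set ((Fin m → ℝ) × (Fin m → ℝ)), L ⊆ (⋃ k, P k) ∧ ∀ k, ∃ M : ℝ, Box (s + η) M (P k)) →
    ENNReal.ofReal s ≤ dimH (Prod.snd '' L) → (∀ l ∈ L, 1 ≤ dimH {t : ℝ | (Yt t l.1 l.2, t) ∈ E}) →
    ENNReal.ofReal (s + 1) ≤ dimH E

/-- packing dimension at most `s`: for every `η > 0` a countable cover by sets of upper box dimension at most `s + η`
(Tricot) -/
def PackLE {X : Type} [MetricSpace X] (s : ℝ) (L : Set X) : Prop :=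
  ∀ η : ℝ, 0 < η → ∃ P : ℕ → Set X, L ⊆ (⋃ k, P k) ∧ ∀ k, ∃ C : ℝ, ∀ δ : ℝ, 0 < δ → δ ≤ 1 →
    ∃ F : Finset X, (F.card : ℝ) ≤ C * δ ^ (-(s + η)) ∧ P k ⊆ ⋃ q ∈ F, Metric.closedBall q δ

/-- (FIN) the invariant form. `L` is a set of pairs (point, unit direction), representing lines -/
def ST_FIN : Prop :=
  ∀ (m : ℕ) (s : ℝ), GapH m → 0 < s →
    ∀ (L : Set (EuclideanSpace ℝ (Fin (m + 1)) × EuclideanSpace ℝ (Fin (m + 1))))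
      (K : Set (EuclideanSpace ℝ (Fin (m + 1)))), (∀ l ∈ L, ‖l.2‖ = 1) → PackLE s L →
      ENNReal.ofReal s ≤ dimH (Prod.snd '' L) → (∀ l ∈ L, 1 ≤ dimH {t : ℝ | l.1 + t • l.2 ∈ K}) →
      ENNReal.ofReal (s + 1) ≤ dimH K

/-- (CHART) one chart: the lines that are not too flat in the coordinate `i` -/
def ST_CHART : Prop :=
  ∀ (m : ℕ) (i : Fin (m + 1)) (s ρ : ℝ) (L : Set (EuclideanSpace ℝ (Fin (m + 1)) × EuclideanSpace ℝ (Fin (m + 1))))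
    (K : Set (EuclideanSpace ℝ (Fin (m + 1)))), 0 < ρ → 0 < s → (∀ l ∈ L, ‖l.2‖ = 1 ∧ ρ ≤ |l.2 i|) → PackLE s L →
    (∀ l ∈ L, 1 ≤ dimH {t : ℝ | l.1 + t • l.2 ∈ K}) →
    ∃ (L' : Set ((Fin m → ℝ) × (Fin m → ℝ))) (E : Set ((Fin m → ℝ) × ℝ)),
      (∀ η : ℝ, 0 < η → ∃ P : ℕ → Set ((Fin m → ℝ) × (Fin m → ℝ)), L' ⊆ (⋃ k, P k) ∧
        ∀ k, ∃ M : ℝ, Box (s + η) M (P k)) ∧
      dimH (Prod.snd '' L) ≤ dimH (Prod.snd '' L') ∧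
      (∀ l ∈ L', 1 ≤ dimH {t : ℝ | (Yt t l.1 l.2, t) ∈ E}) ∧ dimH E ≤ dimH K

end

end Pool.Agent.Helper70.HS
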