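import Pool.Agent.Helper70.HS.Stmts

/-! Robust forms (open neighbourhood of the sticky case). -/

namespace Pool.Agent.Helper70.HS

open Finset
open Pool.Agent.Helper69.RK (CH cel Yt ht Sys mass)

noncomputable section

/-- (COORD2) robust theorem in coordinates: packing dimension at most `s + η`, directions of dimension at least `s - η`,
heights of dimension at least `1 - η` -/
def ST_COORD2 : Prop :=
  ∀ (m : ℕ) (s d : ℝ), GapH m → 0 < s → 0 < d → d < s + 1 → ∃ η : ℝ, 0 < η ∧ η < s ∧ η < 1 ∧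
    ∀ (L : Set ((Fin m → ℝ) × (Fin m → ℝ))) (E : Set ((Fin m → ℝ) × ℝ)),
      (∃ P : ℕ → Set ((Fin m → ℝ) × (Fin m → ℝ)), L ⊆ (⋃ k, P k) ∧ ∀ k, ∃ M : ℝ, Box (s + η) M (P k)) →
      ENNReal.ofReal (s - η) ≤ dimH (Prod.snd '' L) →
      (∀ l ∈ L, ENNReal.ofReal (1 - η) ≤ dimH {t : ℝ | (Yt t l.1 l.2, t) ∈ E}) →
      ENNReal.ofReal d ≤ dimH E

/-- (CHART2) one chart, heights of any dimension `h` -/
def ST_CHART2 : Prop :=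
  ∀ (m : ℕ) (i : Fin (m + 1)) (s ρ : ℝ) (h : ENNReal)
    (L : Set (EuclideanSpace ℝ (Fin (m + 1)) × EuclideanSpace ℝ (Fin (m + 1))))
    (K : Set (EuclideanSpace ℝ (Fin (m + 1)))), 0 < ρ → 0 < s → (∀ l ∈ L, ‖l.2‖ = 1 ∧ ρ ≤ |l.2 i|) → PackLE s L →
    (∀ l ∈ L, h ≤ dimH {t : ℝ | l.1 + t • l.2 ∈ K}) →
    ∃ (L' : Set ((Fin m → ℝ) × (Fin m → ℝ))) (E : Set ((Fin m → ℝ) × ℝ)),
      (∀ η : ℝ, 0 < η → ∃ P : ℕ → Set ((Fin m → ℝ) × (Fin m → ℝ)), L' ⊆ (⋃ k, P k) ∧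
        ∀ k, ∃ M : ℝ, Box (s + η) M (P k)) ∧
      dimH (Prod.snd '' L) ≤ dimH (Prod.snd '' L') ∧
      (∀ l ∈ L', h ≤ dimH {t : ℝ | (Yt t l.1 l.2, t) ∈ E}) ∧ dimH E ≤ dimH K

/-- (FIN2) robust invariant theorem -/
def ST_FIN2 : Prop :=
  ∀ (m : ℕ) (s ε : ℝ), GapH m → 0 < s → 0 < ε → ∃ η : ℝ, 0 < η ∧
    ∀ (L : Set (EuclideanSpace ℝ (Fin (m + 1)) × EuclideanSpace ℝ (Fin (m + 1))))
      (K : Set (EuclideanSpace ℝ (Fin (m + 1)))), (∀ l ∈ L, ‖l.2‖ = 1) → PackLE (s + η) L →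
      ENNReal.ofReal (s - η) ≤ dimH (Prod.snd '' L) →
      (∀ l ∈ L, ENNReal.ofReal (1 - η) ≤ dimH {t : ℝ | l.1 + t • l.2 ∈ K}) →
      ENNReal.ofReal (s + 1 - ε) ≤ dimH K

/-- (SPH) the unit sphere has dimension at least `m` -/
def ST_SPH : Prop :=
  ∀ m : ℕ, ENNReal.ofReal m ≤ dimH {e : EuclideanSpace ℝ (Fin (m + 1)) | ‖e‖ = 1}

end

end Pool.Agent.Helper70.HS
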