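import Pool.Agent.Helper67.HK.GAP
import Pool.Agent.Helper79.HK.NBZ

/-! The core theorem from CON and NBZ, without the lower bound of GHZ. -/

namespace Pool.Agent.Helper70.HS

open Finset Pool.Agent.Helper69.RK Pool.Agent.Helper66.HK

theorem gap2_mono {m : ℕ} {γ γ' : ℝ} (h : Pool.Agent.Helper66.HK.GapH m γ) (hle : γ ≤ γ') :
    Pool.Agent.Helper66.HK.GapH m γ' := by
  intro ε hε
  obtain ⟨η, hη, n0, h3⟩ := h ε hε
  refine ⟨η, hη, n0, fun n hn Ω ζ _ μ Z a x t hs => ?_⟩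
  refine (h3 n hn Ω ζ μ Z a x t hs).trans ?_
  exact mul_le_mul_of_nonneg_right (by linarith) (Nat.cast_nonneg _)

theorem gap2_upper (e1 : ST_E1) (e3 : ST_E3) (m : ℕ) : Pool.Agent.Helper66.HK.GapH m m := by
  intro ε hε
  refine ⟨1, one_pos, 0, fun n _ Ω ζ _ μ Z a x t hs => ?_⟩
  have h1 := nbz_card e3 (n := n) μ Z x hs.nn hs.ms hs.xb
  have h2 := (e1 Ω (Fin m → ℤ) Unit (ℝ × ζ) μ (fun ω => cel n (Yt (t ω) (a ω) (x ω))) (fun _ => ())
    (fun ω => (t ω, Z ω)) hs.nn).1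
  have h3 : 0 ≤ ε * (n : ℝ) := by positivity
  have h4 : ((m : ℝ) + ε) * n = m * n + ε * n := by ring
  rw [h4]
  linarith

theorem gap2 (e1 : ST_E1) (e3 : ST_E3) (h1 : ST_CON) (h2 : ST_NBZ) : ST_GAP := by
  intro m
  set G : Set ℝ := {γ | 0 ≤ γ ∧ Pool.Agent.Helper66.HK.GapH m γ} with hG
  have hne : G.Nonempty := ⟨m, Nat.cast_nonneg m, gap2_upper e1 e3 m⟩
  have hbd : BddBelow G := ⟨0, fun γ hγ => hγ.1⟩
  have hin : Pool.Agent.Helper66.HK.GapH m (sInf G) := by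
    apply gap_limit
    intro δ hδ
    obtain ⟨γ', h4, h5⟩ := exists_lt_of_csInf_lt hne (show sInf G < sInf G + δ by linarith)
    exact ⟨γ', h5, h4.2⟩
  have h0 : 0 ≤ sInf G := le_csInf hne (fun γ hγ => hγ.1)
  rcases h0.eq_or_lt with h | h
  · rw [h]
    exact hin
  exfalso
  have hnot : ∀ δ : ℝ, 0 < δ → ¬ Pool.Agent.Helper66.HK.GapH m (sInf G - δ) := by
    intro δ hδ hc
    have h5 : Pool.Agent.Helper66.HK.GapH m (max 0 (sInf G - δ)) := gap2_mono hc (le_max_right _ _)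
    have h6 := csInf_le hbd (show max 0 (sInf G - δ) ∈ G from ⟨le_max_left _ _, h5⟩)
    have h7 : max 0 (sInf G - δ) < sInf G := max_lt h (by linarith)
    linarith
  obtain ⟨⟨ν₀, hν₀⟩, hposν⟩ := h2 m (sInf G) hnot
  set N : Set ℝ := {ν | NB m (sInf G) ν} with hN
  have hneN : N.Nonempty := ⟨ν₀, hν₀⟩
  have hbdN : BddBelow N := ⟨0, fun ν hν => hposν ν hν⟩
  have hinN : NB m (sInf G) (sInf N) := by
    apply gap_limit'
    intro δ hδ
    obtain ⟨ν', h4, h5⟩ := exists_lt_of_csInf_lt hneN (show sInf N < sInf N + δ by linarith)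
    exact ⟨ν', h5, h4⟩
  refine h1 m (sInf G) (sInf N) h hin hinN fun δ hδ hc => ?_
  have := csInf_le hbdN (show sInf N - δ ∈ N from hc)
  linarith

end Pool.Agent.Helper70.HS
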