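import Pool.Agent.Helper67.HK.BIN
import Pool.Agent.Helper13.HK.CC
import Pool.Agent.Helper4.HK.CD
import Pool.Agent.Helper51.HK.CDA
import Pool.Agent.Helper67.HK.CONT
import Pool.Agent.Helper49.HK.CPL
import Pool.Agent.Helper48.HK.CUB
import Pool.Agent.Helper9.HK.FLO
import Pool.Agent.Helper9.HK.KV
import Pool.Agent.Helper9.HK.UPW
import Pool.Agent.Helper70.RK.E5
import Pool.Agent.Helper15.HK.IID
import Pool.Agent.Helper91.HK.INQ
import Pool.Agent.Helper14.HK.LOW
import Pool.Agent.Helper33.HK.LWR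
import Pool.Agent.Helper79.HK.NBZ
import Pool.Agent.Helper81.HK.OUT
import Pool.Agent.Helper67.HK.SMP
import Pool.Agent.Helper51.HK.TWO
import Pool.Agent.Helper72.HK.TWW
import Pool.Agent.Helper32.HK.WL
import Pool.Agent.Helper68.HK.WN
import Pool.Agent.Helper61.HK.ZC
import Pool.Agent.Helper63.HK.ZH
import Pool.Agent.Helper96.RK.E1
import Pool.Agent.Helper96.RK.E2
import Pool.Agent.Helper96.RK.E3
import Pool.Agent.Helper8.RK.E4
import Pool.Agent.Helper66.HK.E7
import Pool.Agent.Helper63.RK.E8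
import Pool.Agent.Helper70.HS.GAP2

/-! Sticky Kakeya, core of the Hausdorff form: assembly. -/

namespace Pool.Agent.Helper70.HS

open Pool.Agent.Helper69.RK Pool.Agent.Helper66.HK

theorem core (m : ℕ) : Pool.Agent.Helper70.HS.GapH m := by
  have e1 := Pool.Agent.Helper69.RK.st_E1
  have e2 := Pool.Agent.Helper69.RK.st_E2 e1
  have e3 := Pool.Agent.Helper69.RK.st_E3
  have e4 := Pool.Agent.Helper69.RK.st_E4 e1 e3
  have e5 := Pool.Agent.Helper70.RK.st_E5
  have e7 := Pool.Agent.Helper66.HK.st_E7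
  have e8 := Pool.Agent.Helper69.RK.st_E8
  have zh := Pool.Agent.Helper66.HK.st_ZH e1 e2 e3
  have zc := Pool.Agent.Helper61.HK.st_ZC e1 e2 e3
  have wl := Pool.Agent.Helper66.HK.st_WL zh zc
  have wn := Pool.Agent.Helper68.HK.st_WN e2 zh zc
  have flo := Pool.Agent.Helper66.HK.st_FLO e1 e2 e3
  have low := Pool.Agent.Helper66.HK.st_LOW flo e1 e2
  have upw := Pool.Agent.Helper66.HK.st_UPW low flo e1 e2 e3
  have kv := Pool.Agent.Helper66.HK.st_KV e1 e2 e5
  have cpl := Pool.Agent.Helper66.HK.st_CPL e1 e2 e5 e7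
  have tww := Pool.Agent.Helper72.HK.st_TWW low upw cpl flo e1 e2 e5
  have two := Pool.Agent.Helper66.HK.st_TWO tww upw e1 e2 e3
  have cub := Pool.Agent.Helper66.HK.st_CUB e1 e2 e5 e7 e3
  have cc := Pool.Agent.Helper66.HK.st_CC cub e1 e2 e3 e5
  have cda := Pool.Agent.Helper66.HK.st_CDA e1 e2
  have smp := Pool.Agent.Helper66.HK.st_SMP e1 e3 e4
  have cd := Pool.Agent.Helper4.HK.st_CD cc cda smp two wl wn e1 e2
  have iid := Pool.Agent.Helper66.HK.st_IID e1 e2 e8
  have lwr := Pool.Agent.Helper33.HK.LWR.st_LWR e1 e2 e3 e4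
  have inq := Pool.Agent.Helper91.HK.st_INQ lwr kv iid e1 e2 e5
  have con := Pool.Agent.Helper66.HK.st_CON cd inq Pool.Agent.Helper66.HK.st_BIN
  have nbz := Pool.Agent.Helper66.HK.st_NBZ e1 e2 e3
  have gap := gap2 e1 e3 con nbz
  exact Pool.Agent.Helper66.HK.st_OUT e1 e2 e3 m (gap m)

end Pool.Agent.Helper70.HS
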