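import Pool.Agent.Helper70.HS.Stmts

namespace Pool.Agent.Helper70.HS

open Finset
open Pool.Agent.Helper69.RK (Yt)

theorem st_FIN (hchart : ST_CHART) (hcoord : ST_COORD) : ST_FIN := by
  intro m s hgap hs L K hL hpack hdim hK
  set ρ : ℝ := 1 / (m + 1) with hρ
  have hm : (0 : ℝ) < (m : ℝ) + 1 := by positivity
  have hρ0 : 0 < ρ := by rw [hρ]; positivity
  -- the pieces
  set Li : Fin (m + 1) → Set (EuclideanSpace ℝ (Fin (m + 1)) × EuclideanSpace ℝ (Fin (m + 1))) :=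
    fun i => {l | l ∈ L ∧ ρ ≤ |l.2 i|} with hLi
  have hcov : Prod.snd '' L ⊆ ⋃ i, Prod.snd '' (Li i) := by
    rintro e ⟨l, hl, rfl⟩
    have h1 : ‖l.2‖ = 1 := hL l hl
    by_contra hcon
    have h2 : ∀ i, |l.2 i| < ρ := by
      intro i
      by_contra h3
      push Not at h3
      exact hcon (Set.mem_iUnion.2 ⟨i, l, ⟨hl, h3⟩, rfl⟩)
    have h4 : ‖l.2‖ ^ 2 = ∑ i, ‖l.2 i‖ ^ 2 := by
      rw [EuclideanSpace.norm_eq, Real.sq_sqrt (Finset.sum_nonneg (fun i _ => by positivity))]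
    have h5 : ∑ i, ‖l.2 i‖ ^ 2 ≤ ∑ _i : Fin (m + 1), ρ ^ 2 := by
      refine Finset.sum_le_sum (fun i _ => ?_)
      rw [Real.norm_eq_abs]
      exact pow_le_pow_left₀ (abs_nonneg _) (h2 i).le 2
    have h6 : ∑ _i : Fin (m + 1), ρ ^ 2 = (m + 1) * ρ ^ 2 := by
      rw [Finset.sum_const, Finset.card_univ, Fintype.card_fin, nsmul_eq_mul]
      push_cast
      ring
    rw [h1] at h4
    have h7 : (m + 1 : ℝ) * ρ ^ 2 = 1 / (m + 1) := by rw [hρ]; field_simp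
    -- strict inequality
    have h8 : ∑ i, ‖l.2 i‖ ^ 2 < ∑ _i : Fin (m + 1), ρ ^ 2 := by
      refine Finset.sum_lt_sum_of_nonempty Finset.univ_nonempty (fun i _ => ?_)
      rw [Real.norm_eq_abs]
      exact pow_lt_pow_left₀ (h2 i) (abs_nonneg _) (by norm_num)
    rw [h6, h7, ← h4] at h8
    have h9 : (1 : ℝ) / (m + 1) ≤ 1 := by
      rw [div_le_one hm]
      linarith [(Nat.cast_nonneg m : (0 : ℝ) ≤ m)]
    rw [one_pow] at h8
    linarith
  have hdim2 : dimH (Prod.snd '' L) ≤ ⨆ i, dimH (Prod.snd '' (Li i)) := by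
    rw [← dimH_iUnion]
    exact dimH_mono hcov
  obtain ⟨i, hi⟩ : ∃ i, ENNReal.ofReal s ≤ dimH (Prod.snd '' (Li i)) := by
    by_contra hcon
    push Not at hcon
    have h1 : (⨆ i, dimH (Prod.snd '' (Li i))) < ENNReal.ofReal s := by
      obtain ⟨j, hj⟩ := exists_eq_ciSup_of_finite (f := fun i => dimH (Prod.snd '' (Li i)))
      rw [← hj]
      exact hcon j
    exact absurd (le_trans hdim hdim2) (not_le.2 h1)
  have hpi : PackLE s (Li i) := by
    intro η hη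
    obtain ⟨P, hP1, hP2⟩ := hpack η hη
    exact ⟨P, fun l hl => hP1 hl.1, hP2⟩
  obtain ⟨L', E, hbox, hd, hh, hE⟩ := hchart m i s ρ (Li i) K hρ0 hs (fun l hl => ⟨hL l hl.1, hl.2⟩) hpi
    (fun l hl => hK l hl.1)
  exact le_trans (hcoord m s hgap hs L' E hbox (le_trans hi hd) hh) hE

end Pool.Agent.Helper70.HS
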