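import Pool.Agent.Helper70.HS.Stmts2

namespace Pool.Agent.Helper70.HS

open Finset
open Pool.Agent.Helper69.RK (Yt)

/-- one of the charts carries the dimension of the directions -/
theorem fin_piece (m : ℕ) (κ : ENNReal) (L : Set (EuclideanSpace ℝ (Fin (m + 1)) × EuclideanSpace ℝ (Fin (m + 1))))
    (hL : ∀ l ∈ L, ‖l.2‖ = 1) (hdim : κ ≤ dimH (Prod.snd '' L)) :
    ∃ i : Fin (m + 1), κ ≤ dimH (Prod.snd '' {l | l ∈ L ∧ 1 / ((m : ℝ) + 1) ≤ |l.2 i|}) := by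
  set ρ : ℝ := 1 / ((m : ℝ) + 1) with hρ
  have hm : (0 : ℝ) < (m : ℝ) + 1 := by positivity
  have hρ0 : 0 < ρ := by rw [hρ]; positivity
  set Li : Fin (m + 1) → Set (EuclideanSpace ℝ (Fin (m + 1)) × EuclideanSpace ℝ (Fin (m + 1))) :=
    fun i => {l | l ∈ L ∧ ρ ≤ |l.2 i|} with hLi
  have hcov : Prod.snd '' L ⊆ ⋃ i, Prod.snd '' (Li i) := by
    rintro e ⟨l, hl, rfl⟩
    have h1 : ‖l.2‖ = 1 := hL l hl
    by_contra hcon
    have h2 : ∀ i, |l.2 i| < ρ := by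
      intro i
      by_contra h3
      push Not at h3
      exact hcon (Set.mem_iUnion.2 ⟨i, l, ⟨hl, h3⟩, rfl⟩)
    have h4 : ‖l.2‖ ^ 2 = ∑ i, ‖l.2 i‖ ^ 2 := by
      rw [EuclideanSpace.norm_eq, Real.sq_sqrt (Finset.sum_nonneg (fun i _ => by positivity))]
    have h6 : ∑ _i : Fin (m + 1), ρ ^ 2 = (m + 1) * ρ ^ 2 := by
      rw [Finset.sum_const, Finset.card_univ, Fintype.card_fin, nsmul_eq_mul]
      push_cast
      ring
    rw [h1] at h4
    have h7 : (m + 1 : ℝ) * ρ ^ 2 = 1 / (m + 1) := by rw [hρ]; field_simp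
    have h8 : ∑ i, ‖l.2 i‖ ^ 2 < ∑ _i : Fin (m + 1), ρ ^ 2 := by
      refine Finset.sum_lt_sum_of_nonempty Finset.univ_nonempty (fun i _ => ?_)
      rw [Real.norm_eq_abs]
      exact pow_lt_pow_left₀ (h2 i) (abs_nonneg _) (by norm_num)
    rw [h6, h7, ← h4] at h8
    have h9 : (1 : ℝ) / (m + 1) ≤ 1 := by
      rw [div_le_one hm]
      linarith [(Nat.cast_nonneg m : (0 : ℝ) ≤ m)]
    rw [one_pow] at h8
    linarith
  have hdim2 : dimH (Prod.snd '' L) ≤ ⨆ i, dimH (Prod.snd '' (Li i)) := by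
    rw [← dimH_iUnion]
    exact dimH_mono hcov
  by_contra hcon
  push Not at hcon
  have h1 : (⨆ i, dimH (Prod.snd '' (Li i))) < κ := by
    obtain ⟨j, hj⟩ := exists_eq_ciSup_of_finite (f := fun i => dimH (Prod.snd '' (Li i)))
    rw [← hj]
    exact hcon j
  exact absurd (le_trans hdim hdim2) (not_le.2 h1)

theorem st_FIN2 (hchart : ST_CHART2) (hcoord : ST_COORD2) : ST_FIN2 := by
  intro m s ε hgap hs hε
  by_cases hd : s + 1 - ε ≤ 0
  · refine ⟨1, one_pos, fun L K _ _ _ _ => ?_⟩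
    rw [ENNReal.ofReal_of_nonpos hd]
    exact zero_le
  push Not at hd
  obtain ⟨η, hη0, hηs, hη1, hC⟩ := hcoord m s (s + 1 - ε) hgap hs hd (by linarith)
  refine ⟨η / 2, by positivity, fun L K hL hpack hdim hK => ?_⟩
  have hm : (0 : ℝ) < (m : ℝ) + 1 := by positivity
  obtain ⟨i, hi⟩ := fin_piece m (ENNReal.ofReal (s - η / 2)) L hL hdim
  have hpi : PackLE (s + η / 2) {l | l ∈ L ∧ 1 / ((m : ℝ) + 1) ≤ |l.2 i|} := by
    intro η' hη'
    obtain ⟨P, hP1, hP2⟩ := hpack η' hη'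
    exact ⟨P, fun l hl => hP1 hl.1, hP2⟩
  obtain ⟨L', E, hbox, hd', hh, hE⟩ := hchart m i (s + η / 2) (1 / ((m : ℝ) + 1)) (ENNReal.ofReal (1 - η / 2)) _ K
    (by positivity) (by linarith) (fun l hl => ⟨hL l hl.1, hl.2⟩) hpi (fun l hl => hK l hl.1)
  refine le_trans (hC L' E ?_ ?_ ?_) hE
  · obtain ⟨P, hP1, hP2⟩ := hbox (η / 2) (by positivity)
    refine ⟨P, hP1, fun k => ?_⟩
    have : s + η = s + η / 2 + η / 2 := by ring
    rw [this]
    exact hP2 k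
  · exact le_trans (ENNReal.ofReal_le_ofReal (by linarith)) (le_trans hi hd')
  · intro l hl
    exact le_trans (ENNReal.ofReal_le_ofReal (by linarith)) (hh l hl)

end Pool.Agent.Helper70.HS
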