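import Pool.Agent.Helper70.HS.Stmts2

/-! Final theorem of the passage, from the discrete theorem. -/

namespace Pool.Agent.Helper70.HS

open Finset

theorem packLE_mono {X : Type} [MetricSpace X] {s : ℝ} {L L' : Set X} (h : PackLE s L) (hL : L' ⊆ L) : PackLE s L' := by
  intro η hη
  obtain ⟨P, hP1, hP2⟩ := h η hη
  exact ⟨P, hL.trans hP1, hP2⟩

/-- a larger bound for the packing dimension -/
theorem packLE_le {X : Type} [MetricSpace X] {s s' : ℝ} {L : Set X} (h : PackLE s L) (hs : s ≤ s') : PackLE s' L := by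
  intro η hη
  obtain ⟨P, hP1, hP2⟩ := h (η + (s' - s)) (by linarith)
  refine ⟨P, hP1, fun k => ?_⟩
  obtain ⟨C, hC⟩ := hP2 k
  refine ⟨C, fun δ hδ hδ1 => ?_⟩
  have : s + (η + (s' - s)) = s' + η := by ring
  rw [← this]
  exact hC δ hδ hδ1

theorem dimH_seg {s : Set ℝ} (h : Set.Icc (0 : ℝ) 1 ⊆ s) : 1 ≤ dimH s := by
  have h1 : dimH (Set.Icc (0 : ℝ) 1) = 1 := by
    have := Real.dimH_of_nonempty_interior (E := ℝ) (s := Set.Icc (0 : ℝ) 1) (by
      rw [interior_Icc]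
      exact ⟨1 / 2, by norm_num, by norm_num⟩)
    simpa using this
  rw [← h1]
  exact dimH_mono h

/-- exact form from the robust form -/
theorem fin_exact (hfin : ST_FIN2) (m : ℕ) (s : ℝ) (hgap : GapH m) (hs : 0 < s)
    (L : Set (EuclideanSpace ℝ (Fin (m + 1)) × EuclideanSpace ℝ (Fin (m + 1))))
    (K : Set (EuclideanSpace ℝ (Fin (m + 1)))) (hL : ∀ l ∈ L, ‖l.2‖ = 1) (hp : PackLE s L)
    (hd : ENNReal.ofReal s ≤ dimH (Prod.snd '' L)) (hK : ∀ l ∈ L, 1 ≤ dimH {t : ℝ | l.1 + t • l.2 ∈ K}) :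
    ENNReal.ofReal (s + 1) ≤ dimH K := by
  refine le_of_forall_lt (fun c hc => ?_)
  have hct : c ≠ ⊤ := ne_top_of_lt hc
  obtain ⟨r, rfl⟩ : ∃ r : NNReal, c = (r : ENNReal) := ⟨c.toNNReal, (ENNReal.coe_toNNReal hct).symm⟩
  have hr : (r : ℝ) < s + 1 := by
    have h1 : ENNReal.ofReal (r : ℝ) < ENNReal.ofReal (s + 1) := by rwa [ENNReal.ofReal_coe_nnreal]
    exact (ENNReal.ofReal_lt_ofReal_iff (by linarith)).1 h1
  obtain ⟨η, hη, h⟩ := hfin m s ((s + 1 - r) / 2) hgap hs (by linarith)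
  have h2 := h L K hL (packLE_le hp (by linarith)) (le_trans (ENNReal.ofReal_le_ofReal (by linarith)) hd)
    (fun l hl => le_trans (by
      rw [← ENNReal.ofReal_one]
      exact ENNReal.ofReal_le_ofReal (by linarith)) (hK l hl))
  refine lt_of_lt_of_le ?_ h2
  rw [← ENNReal.ofReal_coe_nnreal, ENNReal.ofReal_lt_ofReal_iff (by linarith [r.2, r.coe_nonneg])]
  linarith

/-- Kakeya sets with a sticky family of lines -/
theorem fin_kakeya (hfin : ST_FIN2) (hsph : ST_SPH) (m : ℕ) (hm : 1 ≤ m) (hgap : GapH m)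
    (L : Set (EuclideanSpace ℝ (Fin (m + 1)) × EuclideanSpace ℝ (Fin (m + 1))))
    (K : Set (EuclideanSpace ℝ (Fin (m + 1)))) (hp : PackLE m L)
    (hK : ∀ e : EuclideanSpace ℝ (Fin (m + 1)), ‖e‖ = 1 → ∃ p, (p, e) ∈ L ∧
      ∀ t : ℝ, 0 ≤ t → t ≤ 1 → p + t • e ∈ K) :
    dimH K = (m + 1 : ℕ) := by
  refine le_antisymm ?_ ?_
  · refine le_trans (dimH_mono (Set.subset_univ K)) ?_
    rw [Real.dimH_univ_eq_finrank, finrank_euclideanSpace_fin]
  · have hm0 : (0 : ℝ) < m := by exact_mod_cast hm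
    set L' : Set (EuclideanSpace ℝ (Fin (m + 1)) × EuclideanSpace ℝ (Fin (m + 1))) :=
      {l | l ∈ L ∧ ‖l.2‖ = 1 ∧ ∀ t : ℝ, 0 ≤ t → t ≤ 1 → l.1 + t • l.2 ∈ K} with hL'
    have h1 := fin_exact hfin m m hgap hm0 L' K (fun l hl => hl.2.1) (packLE_mono hp (fun l hl => hl.1)) (by
      refine le_trans (hsph m) (dimH_mono ?_)
      intro e he
      obtain ⟨p, hp1, hp2⟩ := hK e he
      exact ⟨(p, e), ⟨hp1, he, hp2⟩, rfl⟩)
      (fun l hl => dimH_seg (fun t ht => hl.2.2 t ht.1 ht.2))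
    refine le_trans (le_of_eq ?_) h1
    have : ((m : ℝ) + 1) = ((m + 1 : ℕ) : ℝ) := by push_cast; ring
    rw [this, ENNReal.ofReal_natCast]

end Pool.Agent.Helper70.HS
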