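import Pool.Agent.Helper70.HS.Stmts
import Pool.Agent.Helper69.RK.StE

namespace Pool.Agent.Helper70.HS

open Finset
open Pool.Agent.Helper69.RK

/-- growth: logarithmic terms are small -/
theorem scale_growth (m : ℕ) (M c η : ℝ) (hη : 0 < η) : ∃ n0 : ℕ, ∀ n : ℕ, n0 ≤ n →
    Real.logb 2 M + 2 * Real.logb 2 n + Real.logb 2 (1 / c) + m + 1 ≤ η * n ∧ 1 ≤ n := by
  have h1 : Filter.Tendsto (fun n : ℕ => Real.log n / (n : ℝ)) Filter.atTop (nhds 0) := by
    have h := Real.isLittleO_log_id_atTop.tendsto_div_nhds_zero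
    exact h.comp tendsto_natCast_atTop_atTop
  have h2 : Filter.Tendsto (fun n : ℕ => (Real.logb 2 M + Real.logb 2 (1 / c) + m + 1) / (n : ℝ)) Filter.atTop
      (nhds 0) := tendsto_const_div_atTop_nhds_zero_nat _
  have h3 : Filter.Tendsto (fun n : ℕ => (Real.logb 2 M + Real.logb 2 (1 / c) + m + 1) / (n : ℝ) +
      2 / Real.log 2 * (Real.log n / (n : ℝ))) Filter.atTop (nhds (0 + 2 / Real.log 2 * 0)) :=
    h2.add (h1.const_mul _)
  have h4 : (0 : ℝ) + 2 / Real.log 2 * 0 < η := by simpa using hη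
  have h5 := h3.eventually (gt_mem_nhds h4)
  obtain ⟨n0, hn0⟩ := Filter.eventually_atTop.1 h5
  refine ⟨max n0 1, fun n hn => ?_⟩
  have hn1 : 1 ≤ n := le_trans (le_max_right _ _) hn
  have hn2 := hn0 n (le_trans (le_max_left _ _) hn)
  have hnp : (0 : ℝ) < n := by exact_mod_cast hn1
  refine ⟨?_, hn1⟩
  have h6 := (mul_lt_mul_of_pos_right hn2 hnp).le
  refine le_trans (le_of_eq ?_) h6
  have : Real.logb 2 (n : ℝ) = Real.log n / Real.log 2 := rfl
  rw [this]
  field_simp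
  ring

theorem st_SCALE (e1 : ST_E1) (e2 : ST_E2) (e3 : ST_E3) (hent : ST_ENT) : ST_SCALE := by
  classical
  intro m s d hgap hs hd hds
  set ρ : ℝ := s + 1 - d with hρ
  have hρ0 : 0 < ρ := by rw [hρ]; linarith
  obtain ⟨ηG, hηG, nG, hG⟩ := hgap (ρ / 8) (by positivity)
  set η : ℝ := min (min (ηG / 4) (ρ / 16)) (min (s / 2) (1 / 2)) with hη
  have hη0 : 0 < η := by
    rw [hη]
    refine lt_min (lt_min (by positivity) (by positivity)) (lt_min (by positivity) (by norm_num))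
  have hη1 : η ≤ ηG / 4 := le_trans (min_le_left _ _) (min_le_left _ _)
  have hη2 : η ≤ ρ / 16 := le_trans (min_le_left _ _) (min_le_right _ _)
  have hη3 : η ≤ s / 2 := le_trans (min_le_right _ _) (min_le_left _ _)
  have hη4 : η ≤ 1 / 2 := le_trans (min_le_right _ _) (min_le_right _ _)
  refine ⟨η, hη0, by linarith, by linarith, ?_⟩
  intro M c hM hc hc1
  obtain ⟨n0, hn0⟩ := scale_growth m M c η hη0
  refine ⟨max n0 nG, fun n hn L A F hL hbox hcont hA => ?_⟩
  obtain ⟨hgr, hn1⟩ := hn0 n (le_trans (le_max_left _ _) hn)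
  have hnG : nG ≤ n := le_trans (le_max_right _ _) hn
  have hnp : (0 : ℝ) < n := by exact_mod_cast hn1
  have hn1' : (1 : ℝ) ≤ n := by exact_mod_cast hn1
  have hcn : 0 < c / (n : ℝ) ^ 2 := by positivity
  have hcn1 : c / (n : ℝ) ^ 2 ≤ 1 := by
    rw [div_le_one (by positivity)]
    exact le_trans hc1 (one_le_pow₀ hn1')
  have hb0 : 0 < c / (n : ℝ) ^ 2 * (2 : ℝ) ^ ((1 - η) * n) := by positivity
  obtain ⟨Ω, _, μ, a, x, t, hnn, hms, hsup, hX, hA', hT⟩ := hent m n (s + η) (s - η) M (c / (n : ℝ) ^ 2)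
    (c / (n : ℝ) ^ 2 * (2 : ℝ) ^ ((1 - η) * n)) L A (by linarith) hcn hcn1 hM (by linarith) hb0 hL hbox hcont
    (fun l hl => ⟨fun g hg => ((hA l hl).1 g hg).1, (hA l hl).2⟩)
  -- logarithms
  have hlogM : 0 ≤ Real.logb 2 M := Real.logb_nonneg (by norm_num) hM
  have hlogc : 0 ≤ Real.logb 2 (1 / c) := Real.logb_nonneg (by norm_num) (by rw [le_div_iff₀ hc]; linarith)
  have hlogn : 0 ≤ Real.logb 2 n := Real.logb_nonneg (by norm_num) hn1'
  have hl1 : Real.logb 2 (1 / (c / (n : ℝ) ^ 2)) = 2 * Real.logb 2 n + Real.logb 2 (1 / c) := by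
    have : 1 / (c / (n : ℝ) ^ 2) = (n : ℝ) ^ 2 * (1 / c) := by field_simp
    rw [this, Real.logb_mul (by positivity) (by positivity), Real.logb_pow]
    push_cast
    ring
  have hl2 : Real.logb 2 (c / (n : ℝ) ^ 2 * (2 : ℝ) ^ ((1 - η) * n)) =
      (1 - η) * n - (2 * Real.logb 2 n + Real.logb 2 (1 / c)) := by
    rw [Real.logb_mul hcn.ne' (by positivity), Real.logb_rpow (by norm_num) (by norm_num)]
    have : Real.logb 2 (c / (n : ℝ) ^ 2) = - Real.logb 2 (1 / (c / (n : ℝ) ^ 2)) := by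
      rw [one_div, Real.logb_inv, neg_neg]
    rw [this, hl1]
    ring
  rw [hl1] at hX hA'
  rw [hl2] at hT
  have hm0 : (0 : ℝ) ≤ m := Nat.cast_nonneg m
  have herr : Real.logb 2 M + (2 * Real.logb 2 n + Real.logb 2 (1 / c)) ≤ η * n := by linarith
  have herr2 : 2 * Real.logb 2 n + Real.logb 2 (1 / c) ≤ η * n := by linarith
  have hηn : 0 ≤ η * n := by positivity
  -- the system
  have hsys : Sys m n ηG μ (fun _ => ()) a x := by
    refine ⟨hnn, hms, fun ω i => (hL _ (hsup ω).1 i).1, fun ω i => (hL _ (hsup ω).1 i).2, fun k hk => ?_⟩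
    refine le_trans (hA' k hk) ?_
    have hk' : (k : ℝ) ≤ n := by exact_mod_cast hk
    have h1 : (s + η - (s - η)) * (k : ℝ) ≤ 2 * (η * n) := by
      have : (s + η - (s - η)) = 2 * η := by ring
      rw [this, mul_assoc]
      have := mul_le_mul_of_nonneg_left hk' hη0.le
      linarith
    have h2 : 4 * (η * n) ≤ ηG * n := by
      have := mul_le_mul_of_nonneg_right hη1 hnp.le
      linarith
    linarith
  have ht2 : ∀ ω, t ω < 2 ^ n := fun ω => ((hA _ (hsup ω).1).1 _ (hsup ω).2).1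
  have hT' : (1 - ηG) * n ≤ CH μ t (fun ω => (cel n (a ω), cel n (x ω), ((fun _ => ()) : Ω → Unit) ω)) := by
    refine le_trans ?_ hT
    have h2 : 4 * (η * n) ≤ ηG * n := by
      have := mul_le_mul_of_nonneg_right hη1 hnp.le
      linarith
    linarith
  have hgapn := hG n hnG Ω Unit μ (fun _ => ()) a x t hsys ht2 hT'
  -- entropy of (height, cell)
  set C : Ω → Fin m → ℤ := fun ω => cel n (Yt (ht n (t ω)) (a ω) (x ω)) with hC
  have hchain := (e1 Ω ℕ (Fin m → ℤ) Unit μ t C (fun _ => ()) hnn).2.1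
  have hTZ : CH μ t (fun ω => (cel n (a ω), cel n (x ω), ())) ≤ CH μ t (fun _ => ()) :=
    (e2.2.1 Ω ℕ Unit _ μ t (fun _ => ()) (fun ω => (cel n (a ω), cel n (x ω), ())) hnn
      (fun _ _ _ _ _ => rfl))
  -- the values of (t, C)
  have hne : ∃ ω, μ ω ≠ 0 := by
    by_contra hcon
    push Not at hcon
    have : mass μ = 0 := by
      unfold mass
      exact Finset.sum_eq_zero (fun ω _ => hcon ω)
    rw [hms] at this
    exact one_ne_zero this
  have hFpos : 0 < F.card := by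
    obtain ⟨ω, _⟩ := hne
    obtain ⟨_, t', _, _, hF⟩ := (hA _ (hsup ω).1).1 _ (hsup ω).2
    exact Finset.card_pos.2 ⟨_, hF⟩
  set V : Finset (Fin m → ℤ) := Fintype.piFinset (fun _ => ({0, 1} : Finset ℤ)) with hV
  have hVcard : V.card ≤ 2 ^ m := by
    rw [hV, Fintype.card_piFinset]
    simp
  set W : Finset (ℕ × (Fin m → ℤ)) := (F ×ˢ V).image (fun p => (p.1.2, p.1.1 - p.2)) with hW
  have hWcard : (W.card : ℝ) ≤ 2 ^ m * F.card := by
    have h1 : W.card ≤ F.card * V.card := by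
      rw [hW, ← Finset.card_product]
      exact Finset.card_image_le
    have h2 : F.card * V.card ≤ F.card * 2 ^ m := Nat.mul_le_mul_left _ hVcard
    have h3 : (W.card : ℝ) ≤ ((F.card * 2 ^ m : ℕ) : ℝ) := by exact_mod_cast le_trans h1 h2
    push_cast at h3
    linarith
  have hval : ∀ ω, (t ω, C ω) ∈ W := by
    intro ω
    obtain ⟨_, t', h1, h2, hF⟩ := (hA _ (hsup ω).1).1 _ (hsup ω).2
    have hLω := hL _ (hsup ω).1
    rw [hW, Finset.mem_image]
    refine ⟨((cel n (Yt t' (a ω) (x ω)), t ω), cel n (Yt t' (a ω) (x ω)) - C ω), ?_, ?_⟩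
    · rw [Finset.mem_product]
      refine ⟨hF, ?_⟩
      rw [hV, Fintype.mem_piFinset]
      intro i
      have hx := (hLω i).2
      simp only at hx
      have hdiff : (2 : ℝ) ^ n * Yt t' (a ω) (x ω) i =
          (2 : ℝ) ^ n * Yt (ht n (t ω)) (a ω) (x ω) i + ((2 : ℝ) ^ n * t' - t ω) * x ω i := by
        unfold Yt ht
        field_simp
        ring
      set δ : ℝ := ((2 : ℝ) ^ n * t' - t ω) * x ω i with hδ
      have hδ0 : 0 ≤ δ := mul_nonneg (by linarith) hx.1
      have hδ1 : δ < 1 := by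
        have h3 : (2 : ℝ) ^ n * t' - t ω < 1 := by linarith
        have h4 : 0 ≤ (2 : ℝ) ^ n * t' - t ω := by linarith
        nlinarith [hx.1, hx.2]
      have hg : (cel n (Yt t' (a ω) (x ω)) - C ω) i =
          ⌊(2 : ℝ) ^ n * Yt (ht n (t ω)) (a ω) (x ω) i + δ⌋ - ⌊(2 : ℝ) ^ n * Yt (ht n (t ω)) (a ω) (x ω) i⌋ := by
        simp only [hC, Pi.sub_apply, cel]
        rw [hdiff]
      show (cel n (Yt t' (a ω) (x ω)) - C ω) i ∈ _
      rw [hg]
      set y : ℝ := (2 : ℝ) ^ n * Yt (ht n (t ω)) (a ω) (x ω) i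
      have h5 : ⌊y⌋ ≤ ⌊y + δ⌋ := Int.floor_le_floor (by linarith)
      have h6 : ⌊y + δ⌋ ≤ ⌊y⌋ + 1 := by
        have : ⌊y + δ⌋ ≤ ⌊y + 1⌋ := Int.floor_le_floor (by linarith)
        rwa [Int.floor_add_one] at this
      simp only [Finset.mem_insert, Finset.mem_singleton]
      omega
    · simp
  have hWpos : 0 < (W.card : ℝ) := by
    obtain ⟨ω, _⟩ := hne
    exact_mod_cast Finset.card_pos.2 ⟨_, hval ω⟩
  have hup : CH μ (fun ω => (t ω, C ω)) (fun _ => ()) ≤ m + Real.logb 2 F.card := by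
    have h1 := e3.1 Ω (ℕ × (Fin m → ℤ)) Unit μ (fun ω => (t ω, C ω)) (fun _ => ()) (fun _ => (W.card : ℝ)) hnn
      (fun ω _ => by
        refine Nat.cast_le.2 (Finset.card_le_card ?_)
        intro p hp
        obtain ⟨ω', _, rfl⟩ := (@Finset.mem_image _ _ (fun a b => Classical.propDecidable (a = b)) _ _ _).1 hp
        exact hval ω')
    refine le_trans h1 ?_
    have h2 : ∑ ω, μ ω * Real.logb 2 (W.card : ℝ) = Real.logb 2 (W.card : ℝ) := by
      rw [← Finset.sum_mul]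
      have : ∑ ω, μ ω = 1 := hms
      rw [this, one_mul]
    rw [h2]
    have hF0 : (0 : ℝ) < F.card := by exact_mod_cast hFpos
    have h3 : Real.logb 2 (W.card : ℝ) ≤ Real.logb 2 (2 ^ m * F.card) :=
      Real.logb_le_logb_of_le (by norm_num) hWpos hWcard
    refine le_trans h3 (le_of_eq ?_)
    rw [Real.logb_mul (by positivity) hF0.ne', Real.logb_pow, Real.logb_self_eq_one (by norm_num)]
    ring
  -- conclusion
  have hXn := hX n le_rfl
  have hgapn' : CH μ (fun ω => cel n (x ω)) (fun _ => ()) - CH μ C (fun ω => (t ω, ())) ≤ ρ / 8 * n := hgapn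
  have h16 : η * n ≤ ρ / 16 * n := mul_le_mul_of_nonneg_right hη2 hnp.le
  have hfin : d * n < Real.logb 2 F.card := by
    have hρn : 0 < ρ * n := by positivity
    have hdn : d * n = (s + 1) * n - ρ * n := by rw [hρ]; ring
    have e4 : (s - η) * (n : ℝ) = s * n - η * n := by ring
    have e5 : (1 - η) * (n : ℝ) = n - η * n := by ring
    have e6 : (s + 1) * (n : ℝ) = s * n + n := by ring
    rw [e4] at hXn
    rw [e5] at hT
    have hm : (m : ℝ) ≤ η * n := by linarith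
    linarith
  have hF0 : (0 : ℝ) < F.card := by exact_mod_cast hFpos
  calc (2 : ℝ) ^ (d * n) < (2 : ℝ) ^ (Real.logb 2 F.card) :=
        Real.rpow_lt_rpow_of_exponent_lt (by norm_num) hfin
    _ = F.card := Real.rpow_logb (by norm_num) (by norm_num) hF0

end Pool.Agent.Helper70.HS
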