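import Pool.Agent.Helper70.HS.Stmts

namespace Pool.Agent.Helper70.HS

open Finset
open Pool.Agent.Helper69.RK (cel Yt ht)

theorem unit_sum (c : ℝ) (N : ℕ) (hc : 0 ≤ c) (hN : 1 ≤ N) :
    (∑' j : ℕ, ENNReal.ofReal (c / ((N + j : ℕ) : ℝ) ^ 2)) ≤ ENNReal.ofReal (2 * c) := by
  refine ENNReal.tsum_le_of_sum_range_le (fun n => ?_)
  rw [← ENNReal.ofReal_sum_of_nonneg (fun i _ => by positivity)]
  refine ENNReal.ofReal_le_ofReal ?_
  have hN' : (1 : ℝ) ≤ N := by exact_mod_cast hN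
  have key : ∀ n : ℕ, ∑ i ∈ range n, c / ((N + i : ℕ) : ℝ) ^ 2 ≤ 2 * c * (1 / N - 1 / (N + n)) := by
    intro n
    induction n with
    | zero => simp
    | succ n ih =>
      rw [Finset.sum_range_succ]
      have hk : (0 : ℝ) < (N : ℝ) + n := by positivity
      have h1 : c / ((N + n : ℕ) : ℝ) ^ 2 ≤ 2 * c * (1 / (N + n) - 1 / (N + (n + 1 : ℕ))) := by
        push_cast
        have h2 : (1 : ℝ) / (N + n) - 1 / (N + (n + 1)) = 1 / ((N + n) * (N + n + 1)) := by
          field_simp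
          ring
        rw [h2, div_eq_mul_one_div c, mul_assoc, mul_left_comm 2 c]
        refine mul_le_mul_of_nonneg_left ?_ hc
        rw [mul_one_div, div_le_div_iff₀ (by positivity) (by positivity)]
        have h3 : (1 : ℝ) ≤ (N : ℝ) + n := by
          have : (0 : ℝ) ≤ n := Nat.cast_nonneg n
          linarith
        nlinarith
      have h4 : 2 * c * (1 / (N : ℝ) - 1 / (N + (n + 1 : ℕ))) =
          2 * c * (1 / N - 1 / (N + n)) + 2 * c * (1 / (N + n) - 1 / (N + (n + 1 : ℕ))) := by ring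
      rw [h4]
      exact add_le_add ih h1
  refine le_trans (key n) ?_
  have h5 : (1 : ℝ) / N ≤ 1 := by
    rw [div_le_one (by linarith)]
    exact hN'
  have h6 : (0 : ℝ) ≤ 1 / ((N : ℝ) + n) := by positivity
  nlinarith

theorem st_UNIT (hcover : ST_COVER) (hlev : ST_LEV) (hpig : ST_PIG) (hnum : ST_NUM) (hscale : ST_SCALE) :
    ST_UNIT := by
  classical
  intro m s d hgap hs hd hds
  obtain ⟨η, hη0, hηs, hη1, hsc⟩ := hscale m s d hgap hs hd hds
  refine ⟨η, hη0, hηs, hη1, ?_⟩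
  intro M c L E hM hc hL hbox hcont hh
  by_contra hcon
  push Not at hcon
  set c' : ℝ := min (c / 4) 1 with hc'
  have hc'0 : 0 < c' := lt_min (by positivity) one_pos
  have hc'1 : c' ≤ 1 := min_le_right _ _
  have hc'4 : c' ≤ c / 4 := min_le_left _ _
  obtain ⟨n1, hn1⟩ := hsc M c' hM hc'0 hc'1
  set N0 : ℕ := max n1 1 with hN0
  have hN01 : 1 ≤ N0 := le_max_right _ _
  -- the embedding
  set ψ : (Fin m → ℝ) × ℝ → (Fin (m + 1) → ℝ) := fun p => Fin.cons p.2 p.1 with hψ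
  have hlip : LipschitzWith 1 ψ := by
    refine LipschitzWith.of_dist_le_mul (fun p q => ?_)
    rw [NNReal.coe_one, one_mul, dist_pi_le_iff dist_nonneg]
    intro i
    rw [hψ]
    refine Fin.cases ?_ (fun j => ?_) i
    · simp only [Fin.cons_zero]
      exact le_max_right _ _
    · simp only [Fin.cons_succ]
      exact le_trans (dist_le_pi_dist p.1 q.1 j) (le_max_left _ _)
  have hdim : dimH (ψ '' E) < ENNReal.ofReal d := lt_of_le_of_lt (hlip.dimH_image_le E) hcon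
  obtain ⟨Q, hQ1, hQ2, hQ3⟩ := hcover (m + 1) d (ψ '' E) hd hdim N0
  set b : ℕ → ℝ := fun j => c' / ((N0 + j : ℕ) : ℝ) ^ 2 with hb
  have hbsum : (∑' j, ENNReal.ofReal (b j)) < ENNReal.ofReal c := by
    refine lt_of_le_of_lt (unit_sum c' N0 hc'0.le hN01) ?_
    rw [ENNReal.ofReal_lt_ofReal_iff hc]
    linarith
  -- heights
  set Y : ℕ → (Fin m → ℝ) × (Fin m → ℝ) → Set (Fin 1 → ℝ) := fun j l =>
    {t | 0 ≤ t 0 ∧ t 0 < 1 ∧ (N0 + j, cel (N0 + j) (ψ (Yt (t 0) l.1 l.2, t 0))) ∈ Q} with hY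
  have hYc : ∀ l ∈ L, ∃ j, Cont (1 - η) (b j) (Y j l) := by
    intro l hl
    refine hpig 1 (1 - η) c (Hts E l.1 l.2) (fun j => Y j l) b (hh l hl) ?_ hbsum
    intro t ht
    obtain ⟨h0, h1, hE⟩ := ht
    obtain ⟨k, hk⟩ := hQ1 _ ⟨_, hE, rfl⟩
    have hk0 := hQ2 _ hk
    simp only at hk0
    refine Set.mem_iUnion.2 ⟨k - N0, h0, h1, ?_⟩
    have : N0 + (k - N0) = k := by omega
    rw [this]
    exact hk
  set Lj : ℕ → Set ((Fin m → ℝ) × (Fin m → ℝ)) := fun j => {l | l ∈ L ∧ Cont (1 - η) (b j) (Y j l)} with hLj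
  obtain ⟨j, hj⟩ := hpig m (s - η) c (Prod.snd '' L) (fun j => Prod.snd '' (Lj j)) b hcont (by
    rintro x ⟨l, hl, rfl⟩
    obtain ⟨j, hj⟩ := hYc l hl
    exact Set.mem_iUnion.2 ⟨j, l, ⟨hl, hj⟩, rfl⟩) hbsum
  set n : ℕ := N0 + j with hn
  obtain ⟨F0, hF0, hF0c⟩ := hlev (m + 1) d Q hQ3 n
  set F : Finset ((Fin m → ℤ) × ℕ) := F0.image (fun q => ((fun i => q i.succ : Fin m → ℤ), (q 0).toNat)) with hF
  have hFc : (F.card : ℝ) ≤ (2 : ℝ) ^ (d * n) := by
    refine le_trans ?_ hF0c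
    exact_mod_cast Finset.card_image_le
  set A : (Fin m → ℝ) × (Fin m → ℝ) → Finset ℕ := fun l =>
    (range (2 ^ n)).filter (fun g => ∃ t : ℝ, (g : ℝ) ≤ 2 ^ n * t ∧ 2 ^ n * t < g + 1 ∧
      (cel n (Yt t l.1 l.2), g) ∈ F) with hA
  have hAc : ∀ l ∈ Lj j, b j * (2 : ℝ) ^ ((1 - η) * n) ≤ ((A l).card : ℝ) := by
    intro l hl
    set F1 : Finset (Fin 1 → ℤ) := (A l).image (fun g : ℕ => (fun _ => (g : ℤ))) with hF1
    have h1 := hnum 1 (1 - η) (b j) (Y j l) n F1 hl.2 (by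
      intro t ht
      obtain ⟨h0, h1, hq⟩ := ht
      rw [← hn] at hq
      have h2n : (0 : ℝ) < 2 ^ n := by positivity
      have hfl0 : 0 ≤ ⌊(2 : ℝ) ^ n * t 0⌋ := Int.floor_nonneg.2 (by positivity)
      set g : ℕ := ⌊(2 : ℝ) ^ n * t 0⌋.toNat with hg
      have hgz : (g : ℤ) = ⌊(2 : ℝ) ^ n * t 0⌋ := Int.toNat_of_nonneg hfl0
      have hgr : (g : ℝ) = ((⌊(2 : ℝ) ^ n * t 0⌋ : ℤ) : ℝ) := by
        rw [← hgz]
        push_cast
        rfl
      rw [hF1, Finset.mem_image]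
      refine ⟨g, ?_, ?_⟩
      · rw [hA, Finset.mem_filter, Finset.mem_range]
        refine ⟨?_, t 0, ?_, ?_, ?_⟩
        · have : (g : ℝ) < 2 ^ n := by
            rw [hgr]
            refine lt_of_le_of_lt (Int.floor_le _) ?_
            nlinarith
          exact_mod_cast this
        · rw [hgr]
          exact Int.floor_le _
        · rw [hgr]
          exact Int.lt_floor_add_one _
        · rw [hF, Finset.mem_image]
          refine ⟨cel n (ψ (Yt (t 0) l.1 l.2, t 0)), (hF0 _).2 hq, ?_⟩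
          refine Prod.ext ?_ ?_
          · funext i
            simp only [cel, hψ, Fin.cons_succ]
          · simp only [cel, hψ, Fin.cons_zero]
            rw [hg]
      · funext i
        have hi : i = 0 := Subsingleton.elim _ _
        subst hi
        simp only [cel]
        exact hgz)
    refine le_trans h1 ?_
    exact_mod_cast Finset.card_image_le
  have hfin := hn1 n (by rw [hn, hN0]; exact le_trans (le_max_left _ _) (Nat.le_add_right _ _)) (Lj j) A F
    (fun l hl => hL l hl.1)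
    (fun k => by
      obtain ⟨G, hG1, hG2⟩ := hbox k
      exact ⟨G, fun l hl => hG1 l hl.1, hG2⟩) hj
    (fun l hl => ⟨fun g hg => by
      rw [hA, Finset.mem_filter, Finset.mem_range] at hg
      exact hg, hAc l hl⟩)
  exact absurd hFc (not_le.2 hfin)

end Pool.Agent.Helper70.HS
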