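import Pool.Agent.Helper70.HS.Core
import Pool.Agent.Helper70.HS.SCALE
import Pool.Agent.Helper70.HS.UNIT
import Pool.Agent.Helper70.HS.FIN2
import Pool.Agent.Helper70.HS.Final
import Pool.Agent.Helper68.HS.CHART2
import Pool.Agent.Helper35.HS.CONT
import Pool.Agent.Helper63.HS.COORD2
import Pool.Agent.Helper2.HS.COVER
import Pool.Agent.Helper4.HS.ENT
import Pool.Agent.Helper13.HS.FROST
import Pool.Agent.Helper11.HS.LEVPIG
import Pool.Agent.Helper93.HS.SPH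

/-! Sticky Kakeya sets: final theorem. -/

namespace Pool.Agent.Helper70.HS

open Pool.Agent.Helper69.RK (ST_E1 ST_E2 ST_E3)

theorem fin2_all : ST_FIN2 := by
  have e1 := Pool.Agent.Helper69.RK.st_E1
  have e2 := Pool.Agent.Helper69.RK.st_E2 e1
  have e3 := Pool.Agent.Helper69.RK.st_E3
  have ent := Pool.Agent.Helper4.HS.st_ENT e1 e3 Pool.Agent.Helper13.HS.st_FROST
  have scale := st_SCALE e1 e2 e3 ent
  have unit := st_UNIT Pool.Agent.Helper2.HS.st_COVER Pool.Agent.Helper11.HS.LEVPIG.st_LEV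
    Pool.Agent.Helper11.HS.LEVPIG.st_PIG Pool.Agent.Helper11.HS.LEVPIG.st_NUM scale
  have coord := st_COORD2 unit Pool.Agent.Helper35.HS.st_CONT
  exact st_FIN2 Pool.Agent.Helper68.HS.st_CHART2 coord

/-- the final theorem: robust form for `ε > 0`, exact form for `ε = 0` -/
theorem main_of (hgap : ∀ m : ℕ, GapH m) (n : ℕ) (hn : 2 ≤ n) (s ε : ℝ) (hs : 0 < s) (hε : 0 ≤ ε) :
    ∃ η : ℝ, 0 ≤ η ∧ (0 < ε → 0 < η) ∧
      ∀ (L : Set (EuclideanSpace ℝ (Fin n) × EuclideanSpace ℝ (Fin n))) (K : Set (EuclideanSpace ℝ (Fin n))),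
        (∀ l ∈ L, ‖l.2‖ = 1) → PackLE (s + η) L → ENNReal.ofReal (s - η) ≤ dimH (Prod.snd '' L) →
        (∀ l ∈ L, ENNReal.ofReal (1 - η) ≤ dimH {t : ℝ | l.1 + t • l.2 ∈ K}) →
        ENNReal.ofReal (s + 1 - ε) ≤ dimH K := by
  obtain ⟨m, rfl⟩ : ∃ m, n = m + 1 := ⟨n - 1, by omega⟩
  rcases hε.eq_or_lt with h0 | hpos
  · refine ⟨0, le_rfl, fun h => absurd h (by rw [← h0]; exact lt_irrefl 0), ?_⟩
    intro L K hL hp hd hK
    rw [add_zero] at hp
    rw [sub_zero] at hd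
    rw [← h0, sub_zero]
    refine fin_exact fin2_all m s (hgap m) hs L K hL hp hd (fun l hl => ?_)
    have h1 := hK l hl
    rwa [sub_zero, ENNReal.ofReal_one] at h1
  · obtain ⟨η, hη, h⟩ := fin2_all m s ε (hgap m) hs hpos
    exact ⟨η, hη.le, fun _ => hη, h⟩

end Pool.Agent.Helper70.HS
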