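import Pool.Agent.Helper70.HS.Main

/-! Sticky Kakeya sets: the final theorem, complete. -/

namespace Pool.Agent.Helper70.HS

theorem main (n : ℕ) (hn : 2 ≤ n) (s ε : ℝ) (hs : 0 < s) (hε : 0 ≤ ε) :
    ∃ η : ℝ, 0 ≤ η ∧ (0 < ε → 0 < η) ∧
      ∀ (L : Set (EuclideanSpace ℝ (Fin n) × EuclideanSpace ℝ (Fin n))) (K : Set (EuclideanSpace ℝ (Fin n))),
        (∀ l ∈ L, ‖l.2‖ = 1) → PackLE (s + η) L → ENNReal.ofReal (s - η) ≤ dimH (Prod.snd '' L) →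
        (∀ l ∈ L, ENNReal.ofReal (1 - η) ≤ dimH {t : ℝ | l.1 + t • l.2 ∈ K}) →
        ENNReal.ofReal (s + 1 - ε) ≤ dimH K :=
  main_of core n hn s ε hs hε

end Pool.Agent.Helper70.HS
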